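import Mathlib
import Pool.Agent.Helper283.ThV.PLF

set_option autoImplicit false

/-! # Thompson's group on a dyadic interval is generated by two elements -/

namespace Pool.Agent.R888.Spread

open Pool.Agent.Helper283.PL

/-- the group generated by `X` and its copy on the right half -/
noncomputable def GX : Subgroup (Sup 0 1) := Subgroup.closure {X, em [true] X}

theorem X_GX : X ∈ GX := Subgroup.subset_closure (by simp)
theorem X1_GX : em [true] X ∈ GX := Subgroup.subset_closure (by simp)

theorem em_X1_GX : em [true] (em [true] X) ∈ GX := by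
  have h := conj_10184 X X [true] [true, true] (fun x h0 h1 => X3 h0 h1)
  have h' : em [true] (em [true] X) = X * em [true] X * X⁻¹ := by
    rw [em_em, h]
    simp
  rw [h']
  exact mul_mem (mul_mem X_GX X1_GX) (inv_mem X_GX)

theorem em_GX {e : Sup 0 1} (he : e ∈ GX) : em [true] e ∈ GX := by
  unfold GX at he
  induction he using Subgroup.closure_induction with
  | mem x hx =>
    rcases hx with rfl | hx
    · exact X1_GX
    · rw [Set.mem_singleton_iff] at hx
      subst hx
      exact em_X1_GX
  | one => rw [map_one]; exact one_mem _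
  | mul x y _ _ hx hy => rw [map_mul]; exact mul_mem hx hy
  | inv x _ hx => rw [map_inv]; exact inv_mem hx

/-- weight of a tree -/
def wt : BT → ℕ
  | .leaf => 1
  | .node l r => 2 * wt l + wt r

theorem wt_pos (T : BT) : 0 < wt T := by
  induction T with
  | leaf => simp [wt]
  | node l r ihl ihr => simp only [wt]; omega

theorem comb_claim' : ∀ (k : ℕ) (T : BT), wt T ≤ k → ∃ n, ∃ e ∈ GX,
    TreeMap ((e : Sup 0 1) : Equiv.Perm ℝ) T (comb10170 n) := by
  intro k
  induction k with
  | zero =>
    intro T hT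
    have := wt_pos T
    omega
  | succ k ih =>
    intro T hT
    match T with
    | .leaf => exact ⟨0, 1, one_mem _, TreeMap_one10170 _⟩
    | .node .leaf r =>
      simp only [wt] at hT
      obtain ⟨n, e, he, h⟩ := ih r (by omega)
      refine ⟨n + 1, em [false] 1 * em [true] e, ?_, ?_⟩
      · rw [map_one, one_mul]
        exact em_GX he
      · exact TreeMap_node10170 (TreeMap_one10170 BT.leaf) h
    | .node (.node a b) c =>
      simp only [wt] at hT
      have ha := wt_pos a
      obtain ⟨n, e, he, h⟩ := ih (.node a (.node b c)) (by simp only [wt]; omega)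
      refine ⟨n, e * X, mul_mem he X_GX, ?_⟩
      exact TreeMap_trans10170 (TreeMap_X10170 a b c) h

/-- `F` is generated by two elements -/
theorem gen_two (h : Sup 0 1) : h ∈ GX := by
  obtain ⟨T, S, hTS⟩ := exists_trees h.2
  obtain ⟨n, e1, he1, h1⟩ := comb_claim' _ T le_rfl
  obtain ⟨m, e2, he2, h2⟩ := comb_claim' _ S le_rfl
  have l1 := hTS.length_eq
  have l2 := h1.length_eq
  have l3 := h2.length_eq
  rw [comb_leaves10170] at l2 l3
  have hnm : n = m := by omega
  subst hnm
  have h3 := TreeMap_trans10170 h1 (TreeMap_symm10170 h2)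
  have key : h = e2⁻¹ * e1 := by
    apply Sup_ext10170
    intro x hx0 hx1
    obtain ⟨u, hu, y, hy0, hy1, rfl⟩ := leaf_cover10170 T hx0 hx1
    obtain ⟨v, hv1, hv2⟩ := forall2_and10170 hTS h3 u hu
    rw [hv1 y hy0 hy1]
    exact (hv2 y hy0 hy1).symm
  rw [key]
  exact mul_mem (inv_mem he2) he1

/-- every group `Sup s t` is generated by two elements -/
theorem gen_Sup {s t : ℝ} (hs : Dy s) (ht : Dy t) (hst : s < t) :
    ∃ u v : Equiv.Perm ℝ, u ∈ Sup s t ∧ v ∈ Sup s t ∧ Sup s t ≤ Subgroup.closure {u, v} := by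
  obtain ⟨P, hP, hP0, hP1⟩ := PLH_interp Dy.zero Dy.one hs ht zero_lt_one hst
  refine ⟨P * (X : Equiv.Perm ℝ) * P⁻¹, P * (em [true] X : Equiv.Perm ℝ) * P⁻¹,
    conj_Sup_10186 hP hP0 hP1 X.2, conj_Sup_10186 hP hP0 hP1 (em [true] X).2, ?_⟩
  have key : ∀ e : Sup 0 1, P * (e : Equiv.Perm ℝ) * P⁻¹ ∈
      Subgroup.closure {P * (X : Equiv.Perm ℝ) * P⁻¹, P * (em [true] X : Equiv.Perm ℝ) * P⁻¹} := by
    intro e
    have he : e ∈ GX := gen_two e
    unfold GX at he
    induction he using Subgroup.closure_induction with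
    | mem x hx =>
      apply Subgroup.subset_closure
      rcases hx with rfl | hx
      · left; rfl
      · rw [Set.mem_singleton_iff] at hx
        subst hx
        right; rfl
    | one => simp
    | mul x y _ _ hx hy =>
      have : P * ((x * y : Sup 0 1) : Equiv.Perm ℝ) * P⁻¹ =
        (P * (x : Equiv.Perm ℝ) * P⁻¹) * (P * (y : Equiv.Perm ℝ) * P⁻¹) := by
        push_cast; group
      rw [this]
      exact mul_mem hx hy
    | inv x _ hx =>
      have : P * ((x⁻¹ : Sup 0 1) : Equiv.Perm ℝ) * P⁻¹ = (P * (x : Equiv.Perm ℝ) * P⁻¹)⁻¹ := by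
        push_cast; group
      rw [this]
      exact inv_mem hx
  intro h hh
  have hh' : P⁻¹ * h * P ∈ Sup 0 1 := by
    refine ⟨PLH.mul_mem (PLH.mul_mem (PLH.inv_mem hP) hh.1) hP, fun x hx => ?_⟩
    have hx' : P x ≤ s ∨ t ≤ P x := by
      rcases hx with hx | hx
      · left
        rw [← hP0]
        exact hP.1.monotone hx
      · right
        rw [← hP1]
        exact hP.1.monotone hx
    rw [Equiv.Perm.mul_apply, Equiv.Perm.mul_apply, hh.2 _ hx', inv_left]
  have := key ⟨_, hh'⟩
  have e : P * (P⁻¹ * h * P) * P⁻¹ = h := by group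
  simpa only [e] using this

end Pool.Agent.R888.Spread
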