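import Mathlib
import Pool.Agent.R888.Spread.Gen

set_option autoImplicit false

/-! # Subgroups normalised by Thompson's group on an interval -/

namespace Pool.Agent.R888.Spread

open Pool.Agent.Helper283.PL

theorem dy_map {f : Equiv.Perm ℝ} (hf : f ∈ PLH) {s : ℝ} (hs : Dy s) : Dy (f s) :=
  ((mem_PLH.1 hf).2 s).dy.2 hs

theorem dy_inv {f : Equiv.Perm ℝ} (hf : f ∈ PLH) {s : ℝ} (hs : Dy s) : Dy (f⁻¹ s) :=
  dy_map (PLH.inv_mem hf) hs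

theorem lt_iff' {f : Equiv.Perm ℝ} (hf : f ∈ PLH) {s t : ℝ} : f s < f t ↔ s < t :=
  (mem_PLH.1 hf).1.lt_iff_lt

theorem le_iff' {f : Equiv.Perm ℝ} (hf : f ∈ PLH) {s t : ℝ} : f s ≤ f t ↔ s ≤ t :=
  (mem_PLH.1 hf).1.le_iff_le

theorem inv_lt_iff' {f : Equiv.Perm ℝ} (hf : f ∈ PLH) {s t : ℝ} : f⁻¹ s < t ↔ s < f t := by
  rw [← lt_iff' hf, inv_right]

theorem lt_inv_iff' {f : Equiv.Perm ℝ} (hf : f ∈ PLH) {s t : ℝ} : s < f⁻¹ t ↔ f s < t := by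
  rw [← lt_iff' hf, inv_right]

/-- extend an element beyond `s`, with a prescribed value at `t` -/
theorem ext_to {f : Equiv.Perm ℝ} (hf : f ∈ PLH) {s t t' : ℝ} (hs : Dy s) (ht : Dy t)
    (ht' : Dy t') (hst : s < t) (h : f s < t') :
    ∃ e ∈ PLH, (∀ x, x ≤ s → e x = f x) ∧ e t = t' := by
  obtain ⟨g, hg, g1, g2⟩ := PLH_interp hs ht (dy_map hf hs) ht' hst h
  obtain ⟨e, he, e1, e2⟩ := PLH_glue hf hg hs g1.symm
  exact ⟨e, he, e1, by rw [e2 t hst.le, g2]⟩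

/-- elements supported in an interval preserve it -/
theorem Sup_maps {u v : ℝ} {e : Equiv.Perm ℝ} (he : e ∈ Sup u v) {x : ℝ} (h1 : u ≤ x)
    (h2 : x ≤ v) : u ≤ e x ∧ e x ≤ v := by
  have a := he.2 u (Or.inl le_rfl)
  have b := he.2 v (Or.inr le_rfl)
  constructor
  · rw [← a]; exact he.1.1.monotone h1
  · rw [← b]; exact he.1.1.monotone h2

theorem conj_Sup {u v : ℝ} {f e : Equiv.Perm ℝ} (hf : f ∈ PLH) (he : e ∈ Sup u v) :
    f * e * f⁻¹ ∈ Sup (f u) (f v) := by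
  refine ⟨PLH.mul_mem (PLH.mul_mem hf he.1) (PLH.inv_mem hf), fun x hx => ?_⟩
  rw [Equiv.Perm.mul_apply, Equiv.Perm.mul_apply, he.2, inv_right]
  rcases hx with hx | hx
  · left
    rw [← le_iff' hf, inv_right]; exact hx
  · right
    rw [← le_iff' hf, inv_right]; exact hx

/-- a shift inside an interval -/
theorem exists_move {b0 b1 s t s' t' : ℝ} (hb0 : Dy b0) (hb1 : Dy b1) (hs : Dy s) (ht : Dy t)
    (hs' : Dy s') (ht' : Dy t') (h1 : b0 < s) (h2 : s < t) (h3 : t < b1)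
    (h1' : b0 < s') (h2' : s' < t') (h3' : t' < b1) :
    ∃ e ∈ Sup b0 b1, e s = s' ∧ e t = t' := by
  obtain ⟨e1, he1, a1, c1⟩ := ext_to PLH.one_mem hb0 hs hs' h1 (by simpa using h1')
  obtain ⟨e2, he2, a2, c2⟩ := ext_to he1 hs ht ht' h2 (by rw [c1]; exact h2')
  obtain ⟨e3, he3, a3, c3⟩ := ext_to he2 ht hb1 hb1 h3 (by rw [c2]; exact h3')
  obtain ⟨e4, he4, a4, c4⟩ := PLH_glue he3 PLH.one_mem hb1 (by rw [c3]; rfl)
  refine ⟨e4, ⟨he4, fun x hx => ?_⟩, ?_, ?_⟩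
  · rcases hx with hx | hx
    · rw [a4 x (by linarith), a3 x (by linarith), a2 x (by linarith), a1 x hx]
      rfl
    · rw [c4 x hx]; rfl
  · rw [a4 s (by linarith), a3 s (by linarith), a2 s le_rfl, c1]
  · rw [a4 t (by linarith), a3 t le_rfl, c2]

/-- a subgroup normalised by `Sup b0 b1` which contains a nontrivial element of it contains all
elements supported in a smaller interval -/
theorem supp_le {b0 b1 : ℝ} (hb0 : Dy b0) (hb1 : Dy b1) {H : Subgroup (Equiv.Perm ℝ)}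
    (hN : ∀ g ∈ Sup b0 b1, ∀ m ∈ H, m ∈ Sup b0 b1 → g * m * g⁻¹ ∈ H)
    {m : Equiv.Perm ℝ} (hm : m ∈ H) (hmS : m ∈ Sup b0 b1) (hm1 : m ≠ 1)
    {s t : ℝ} (hs : Dy s) (ht : Dy t) (h1 : b0 < s) (h2 : s < t) (h3 : t < b1) :
    Sup s t ≤ H := by
  -- an element moving a point to the right
  obtain ⟨m0, q, hm0, hm0S, hq⟩ : ∃ m0 : Equiv.Perm ℝ, ∃ q, m0 ∈ H ∧ m0 ∈ Sup b0 b1 ∧ q < m0 q := by
    have : ∃ q, m q ≠ q := by
      by_contra hc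
      push Not at hc
      exact hm1 (Equiv.ext hc)
    obtain ⟨q, hq⟩ := this
    rcases lt_or_gt_of_ne hq with hq | hq
    · refine ⟨m⁻¹, q, H.inv_mem hm, (Sup b0 b1).inv_mem hmS, ?_⟩
      rw [lt_inv_iff' hmS.1]
      exact hq
    · exact ⟨m, q, hm, hmS, hq⟩
  have hq0 : b0 < q := by
    by_contra hc
    rw [hm0S.2 q (Or.inl (not_lt.1 hc))] at hq
    exact lt_irrefl _ hq
  have hq1 : q < b1 := by
    by_contra hc
    rw [hm0S.2 q (Or.inr (not_lt.1 hc))] at hq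
    exact lt_irrefl _ hq
  obtain ⟨k1, dk1, hk1, hk1'⟩ := Dy.exists_between hq
  obtain ⟨k0, dk0, hk0, hk0'⟩ := Dy.exists_between
    (show max b0 (m0⁻¹ k1) < q from max_lt hq0 (by rw [inv_lt_iff' hm0S.1]; exact hk1'))
  have hk00 : b0 < k0 := (le_max_left _ _).trans_lt hk0
  have hk01 : k1 < m0 k0 := by
    rw [← inv_lt_iff' hm0S.1]
    exact (le_max_right _ _).trans_lt hk0
  have hk11 : k1 < b1 := by
    have := hm0S.1.1 hq1
    rw [hm0S.2 b1 (Or.inr le_rfl)] at this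
    exact hk1'.trans this
  have hkk : k0 < k1 := hk0'.trans hk1
  have hsub : ∀ f ∈ Sup k0 k1, f ∈ Sup b0 b1 := fun f hf => Sup.mono hk00.le hk11.le hf
  -- commutators
  have hcomm : ∀ f ∈ Sup k0 k1, ∀ g ∈ Sup k0 k1, f * g * f⁻¹ * g⁻¹ ∈ H := by
    intro f hf g hg
    have hf' := hsub f hf
    have hg' := hsub g hg
    have hc : f * m0 * f⁻¹ * m0⁻¹ ∈ H :=
      H.mul_mem (hN f hf' m0 hm0 hm0S) (H.inv_mem hm0)
    have hcS : f * m0 * f⁻¹ * m0⁻¹ ∈ Sup b0 b1 :=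
      mul_mem (mul_mem (mul_mem hf' hm0S) (inv_mem hf')) (inv_mem hm0S)
    have h4 : g * (f * m0 * f⁻¹ * m0⁻¹)⁻¹ * g⁻¹ ∈ H :=
      hN g hg' _ (H.inv_mem hc) (inv_mem hcS)
    have h5 := H.mul_mem hc h4
    have h6 : m0 * f⁻¹ * m0⁻¹ ∈ Sup (m0 k0) (m0 k1) := conj_Sup hm0S.1 (inv_mem hf)
    have h7 := Sup.comm hk01.le hg h6
    have h8 : f * m0 * f⁻¹ * m0⁻¹ * (g * (f * m0 * f⁻¹ * m0⁻¹)⁻¹ * g⁻¹) = f * g * f⁻¹ * g⁻¹ := by
      have e1 : f * m0 * f⁻¹ * m0⁻¹ = f * (m0 * f⁻¹ * m0⁻¹) := by group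
      rw [e1]
      have e2 : f * (m0 * f⁻¹ * m0⁻¹) * (g * (f * (m0 * f⁻¹ * m0⁻¹))⁻¹ * g⁻¹) =
        f * ((m0 * f⁻¹ * m0⁻¹) * g * (m0 * f⁻¹ * m0⁻¹)⁻¹) * f⁻¹ * g⁻¹ := by
        rw [mul_inv_rev f (m0 * f⁻¹ * m0⁻¹)]
        group
      rw [e2, ← h7, mul_inv_cancel_right]
    rw [h8] at h5
    exact h5
  -- smaller intervals
  obtain ⟨s', ds', hs'1, hs'2⟩ := Dy.exists_between hkk
  obtain ⟨t', dt', ht'1, ht'2⟩ := Dy.exists_between hs'2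
  obtain ⟨e, he, e1, e2⟩ := exists_move hb0 hb1 hs ht ds' dt' h1 h2 h3
    (hk00.trans hs'1) ht'1 (ht'2.trans hk11)
  intro h hh
  have h4 : e * h * e⁻¹ ∈ Sup s' t' := by
    have := conj_Sup he.1 hh
    rwa [e1, e2] at this
  set ε := min (s' - k0) (k1 - t') with hε
  have hεp : 0 < ε := lt_min (by linarith) (by linarith)
  have hε1 : ε ≤ s' - k0 := min_le_left _ _
  have hε2 : ε ≤ k1 - t' := min_le_right _ _
  obtain ⟨L, hL, hprod⟩ := comm_prod dk0 dk1 hεp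
    (Sup.mono (by linarith) (by linarith) h4 : e * h * e⁻¹ ∈ Sup (k0 + ε) (k1 - ε))
  have h5 : e * h * e⁻¹ ∈ H := by
    rw [hprod]
    apply Subgroup.list_prod_mem
    intro c hc
    obtain ⟨p, hp, rfl⟩ := List.mem_map.1 hc
    exact hcomm _ (hL p hp).1 _ (hL p hp).2
  have h6 : e * h * e⁻¹ ∈ Sup b0 b1 :=
    Sup.mono ((hk00.trans hs'1).le) ((ht'2.trans hk11).le) h4
  have h7 := hN e⁻¹ (inv_mem he) _ h5 h6
  have h8 : e⁻¹ * (e * h * e⁻¹) * e⁻¹⁻¹ = h := by group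
  rwa [h8] at h7

end Pool.Agent.R888.Spread
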