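import Mathlib
import Pool.Agent.R888.Spread.Norm

set_option autoImplicit false

/-! # The mate of an element -/

namespace Pool.Agent.R888.Spread

open Pool.Agent.Helper283.PL

/-- `e` is the translation by `n` near `-∞` and the translation by `-n` near `+∞` -/
def EndsAt (n : ℤ) (e : ℝ → ℝ) : Prop :=
  ∃ M : ℝ, (∀ x, x ≤ -M → e x = x + n) ∧ (∀ x, M ≤ x → e x = x - n)

/-- two elements which agree on `[b0, b1]` conjugate elements supported there in the same way -/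
theorem conj_eq {b0 b1 : ℝ} {w u e : Equiv.Perm ℝ} (hu : u ∈ Sup b0 b1)
    (hw : ∀ t, b0 ≤ t → t ≤ b1 → w t = u t) (he : e ∈ Sup b0 b1) :
    w * e * w⁻¹ = u * e * u⁻¹ := by
  have hinv : ∀ z, b0 ≤ z → z ≤ b1 → w⁻¹ z = u⁻¹ z := by
    intro z h0 h1
    obtain ⟨h2, h3⟩ := Sup_maps (inv_mem hu) h0 h1
    rw [Equiv.Perm.inv_eq_iff_eq, hw _ h2 h3, inv_right]
  ext z
  rw [Equiv.Perm.mul_apply, Equiv.Perm.mul_apply]
  by_cases hz : b0 ≤ z ∧ z ≤ b1
  · obtain ⟨h2, h3⟩ := Sup_maps (inv_mem hu) hz.1 hz.2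
    obtain ⟨h4, h5⟩ := Sup_maps he h2 h3
    rw [hinv z hz.1 hz.2, hw _ h4 h5]
    rfl
  · have h1 : ¬ (b0 ≤ w⁻¹ z ∧ w⁻¹ z ≤ b1) := by
      rintro ⟨h2, h3⟩
      apply hz
      have h4 := hw _ h2 h3
      rw [inv_right] at h4
      obtain ⟨h5, h6⟩ := Sup_maps hu h2 h3
      rw [h4]
      exact ⟨h5, h6⟩
    have h2 : w⁻¹ z ≤ b0 ∨ b1 ≤ w⁻¹ z := by
      by_contra hc
      push Not at hc
      exact h1 ⟨hc.1.le, hc.2.le⟩
    have h3 : z ≤ b0 ∨ b1 ≤ z := by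
      by_contra hc
      push Not at hc
      exact hz ⟨hc.1.le, hc.2.le⟩
    rw [he.2 _ h2, inv_right]
    exact ((mul_mem (mul_mem hu he) (inv_mem hu)).2 z h3).symm

/-- the data of a mate -/
theorem exists_mate {x : Equiv.Perm ℝ} (hx : x ∈ PLH) {p : ℝ} (hp : p < x p) :
    ∃ (b0 b1 β0 β1 A B : ℝ) (y u v : Equiv.Perm ℝ), Dy b0 ∧ Dy b1 ∧ Dy β0 ∧ Dy β1 ∧
      b0 < β0 ∧ β0 < β1 ∧ β1 < b1 ∧ b1 < x b0 ∧ y ∈ PLH ∧
      (∀ t, t ≤ A → y t = t + 1) ∧ (∀ t, B ≤ t → y t = t - 1) ∧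
      (∀ t, A ≤ t → b0 ≤ (y ^ 5) t) ∧ (∀ t, t ≤ B → (y ^ 5) t ≤ b1) ∧
      y b0 = β0 ∧ y b1 = β1 ∧ u ∈ Sup b0 b1 ∧ v ∈ Sup b0 b1 ∧
      Sup b0 b1 ≤ Subgroup.closure {u, v} ∧
      (∀ t, b0 ≤ t → t ≤ b1 → (x * y⁻¹ * x⁻¹ * y * y * x) t = u t) ∧
      (∀ t, b0 ≤ t → t ≤ b1 → (x * y⁻¹ * y⁻¹ * x⁻¹ * y * x) t = v t) := by
  have hxi := PLH.inv_mem hx
  obtain ⟨b1, db1, hb1, hb1'⟩ := Dy.exists_between hp
  obtain ⟨b0, db0, hb0, hb0'⟩ := Dy.exists_between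
    (show x⁻¹ b1 < p by rw [inv_lt_iff' hx]; exact hb1')
  have hbb : b0 < b1 := hb0'.trans hb1
  have hbr : b1 < x b0 := by rwa [← inv_lt_iff' hx]
  obtain ⟨f0, df0, hf0, hf0'⟩ := Dy.exists_between hbr
  obtain ⟨f1, df1, hf1, hf1'⟩ := Dy.exists_between hf0'
  obtain ⟨e0, de0, he0, he0'⟩ := Dy.exists_between hf1'
  obtain ⟨e1, de1, he1, he1'⟩ := Dy.exists_between he0'
  obtain ⟨β0, dβ0, hβ0, hβ0'⟩ := Dy.exists_between hbb
  obtain ⟨β1, dβ1, hβ1, hβ1'⟩ := Dy.exists_between hβ0'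
  set r0 := x b0 with hr0
  set r1 := x b1 with hr1
  set l0 := x⁻¹ b0 with hl0
  set l1 := x⁻¹ b1 with hl1
  set d0 := x⁻¹ f0 with hd0
  set d1 := x⁻¹ f1 with hd1
  set g0 := x⁻¹ e0 with hg0
  set g1 := x⁻¹ e1 with hg1
  have dr0 : Dy r0 := dy_map hx db0
  have dr1 : Dy r1 := dy_map hx db1
  have dl0 : Dy l0 := dy_map hxi db0
  have dl1 : Dy l1 := dy_map hxi db1
  have dd0 : Dy d0 := dy_map hxi df0
  have dd1 : Dy d1 := dy_map hxi df1
  have dg0 : Dy g0 := dy_map hxi de0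
  have dg1 : Dy g1 := dy_map hxi de1
  have hrr : r0 < r1 := (lt_iff' hx).2 hbb
  have hll : l0 < l1 := (lt_iff' hxi).2 hbb
  have hld : l1 < d0 := (lt_iff' hxi).2 hf0
  have hdd : d0 < d1 := (lt_iff' hxi).2 hf1
  have hdg : d1 < g0 := (lt_iff' hxi).2 he0
  have hgg : g0 < g1 := (lt_iff' hxi).2 he1
  have hgb : g1 < b0 := by rw [hg1, inv_lt_iff' hx]; exact he1'
  obtain ⟨u, v, hu, hv, huv⟩ := gen_Sup db0 db1 hbb
  have hub0 : u⁻¹ b0 = b0 := (inv_mem hu).2 b0 (Or.inl le_rfl)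
  have hub1 : u⁻¹ b1 = b1 := (inv_mem hu).2 b1 (Or.inr le_rfl)
  have hvb0 : v⁻¹ b0 = b0 := (inv_mem hv).2 b0 (Or.inl le_rfl)
  have hvb1 : v⁻¹ b1 = b1 := (inv_mem hv).2 b1 (Or.inr le_rfl)
  obtain ⟨α, hα, hα0, hα1⟩ := PLH_interp dr0 dr1 de0 de1 hrr he1
  obtain ⟨β, hβ, hβe0, hβe1⟩ := PLH_interp de0 de1 df0 df1 he1 hf1
  have hxl0 : x l0 = b0 := inv_right x b0
  have hxl1 : x l1 = b1 := inv_right x b1
  -- the two prescribed pieces on the left
  set γ : Equiv.Perm ℝ := x⁻¹ * β * α * x * u⁻¹ * x with hγ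
  have hγm : γ ∈ PLH := by
    refine mul_mem (mul_mem (mul_mem (mul_mem (mul_mem hxi hβ) hα) hx) ?_) hx
    exact (inv_mem hu).1
  have hγ0 : γ l0 = d0 := by
    simp only [hγ, Equiv.Perm.mul_apply]
    rw [hxl0, hub0, ← hr0, hα0, hβe0]
  have hγ1 : γ l1 = d1 := by
    simp only [hγ, Equiv.Perm.mul_apply]
    rw [hxl1, hub1, ← hr1, hα1, hβe1]
  have hγi0 : γ⁻¹ d0 = l0 := by rw [← hγ0, inv_left]
  have hγi1 : γ⁻¹ d1 = l1 := by rw [← hγ1, inv_left]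
  set δ : Equiv.Perm ℝ := x⁻¹ * α * x * v⁻¹ * x * γ⁻¹ with hδ
  have hδm : δ ∈ PLH := by
    refine mul_mem (mul_mem (mul_mem (mul_mem (mul_mem hxi hα) hx) ?_) hx) (inv_mem hγm)
    exact (inv_mem hv).1
  have hδ0 : δ d0 = g0 := by
    simp only [hδ, Equiv.Perm.mul_apply]
    rw [hγi0, hxl0, hvb0, ← hr0, hα0]
  have hδ1 : δ d1 = g1 := by
    simp only [hδ, Equiv.Perm.mul_apply]
    rw [hγi1, hxl1, hvb1, ← hr1, hα1]
  -- gluing
  have da : Dy (l0 - 1) := dl0.sub Dy.one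
  obtain ⟨y1, hy1, k1, v1⟩ := ext_to (tr_mem Dy.one) da dl0 dd0 (by linarith)
    (by rw [tr_apply]; linarith)
  obtain ⟨y2, hy2, k2, k2'⟩ := PLH_glue hy1 hγm dl0 (by rw [v1, hγ0])
  have v2 : y2 l1 = d1 := by rw [k2' l1 hll.le, hγ1]
  obtain ⟨y3, hy3, k3, v3⟩ := ext_to hy2 dl1 dd0 dg0 hld (by rw [v2]; exact hdg)
  obtain ⟨y4, hy4, k4, k4'⟩ := PLH_glue hy3 hδm dd0 (by rw [v3, hδ0])
  have v4 : y4 d1 = g1 := by rw [k4' d1 hdd.le, hδ1]
  obtain ⟨y5, hy5, k5, v5⟩ := ext_to hy4 dd1 dg1 db0 (hdg.trans hgg) (by rw [v4]; exact hgb)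
  obtain ⟨y6, hy6, k6, v6⟩ := ext_to hy5 dg1 db0 dβ0 hgb (by rw [v5]; exact hβ0)
  obtain ⟨y7, hy7, k7, v7⟩ := ext_to hy6 db0 db1 dβ1 hbb (by rw [v6]; exact hβ1)
  obtain ⟨y8, hy8, k8, v8⟩ := ext_to hy7 db1 df0 db1 hf0 (by rw [v7]; exact hβ1')
  obtain ⟨y9, hy9, k9, v9⟩ := ext_to hy8 df0 de0 df0 (hf1.trans he0) (by rw [v8]; exact hf0)
  obtain ⟨y10, hy10, k10, k10'⟩ := PLH_glue hy9 hβ de0 (by rw [v9, hβe0])
  have v10 : y10 e1 = f1 := by rw [k10' e1 he1.le, hβe1]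
  obtain ⟨y11, hy11, k11, v11⟩ := ext_to hy10 de1 dr0 de0 he1' (by rw [v10]; exact he0)
  obtain ⟨y12, hy12, k12, k12'⟩ := PLH_glue hy11 hα dr0 (by rw [v11, hα0])
  have v12 : y12 r1 = e1 := by rw [k12' r1 hrr.le, hα1]
  have dr1' : Dy (r1 + 1) := dr1.add Dy.one
  obtain ⟨y13, hy13, k13, v13⟩ := ext_to hy12 dr1 dr1' dr1 (by linarith)
    (by rw [v12]; linarith)
  obtain ⟨y, hy, k14, k14'⟩ := PLH_glue hy13 (tr_mem Dy.one.neg) dr1'
    (by rw [v13, tr_apply]; ring)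
  -- the values of `y`
  have o1 : l0 - 1 < l0 := by linarith
  have o2 : r1 < r1 + 1 := by linarith
  have ya : ∀ t, t ≤ l0 - 1 → y t = t + 1 := by
    intro t ht
    rw [k14 t (by linarith), k13 t (by linarith), k12 t (by linarith), k11 t (by linarith),
      k10 t (by linarith), k9 t (by linarith), k8 t (by linarith), k7 t (by linarith),
      k6 t (by linarith), k5 t (by linarith), k4 t (by linarith), k3 t (by linarith),
      k2 t (by linarith), k1 t ht, tr_apply]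
  have yb : ∀ t, r1 + 1 ≤ t → y t = t - 1 := by
    intro t ht
    rw [k14' t ht, tr_apply]
    ring
  have yγ : ∀ t, l0 ≤ t → t ≤ l1 → y t = γ t := by
    intro t h0 h1
    rw [k14 t (by linarith), k13 t (by linarith), k12 t (by linarith), k11 t (by linarith),
      k10 t (by linarith), k9 t (by linarith), k8 t (by linarith), k7 t (by linarith),
      k6 t (by linarith), k5 t (by linarith), k4 t (by linarith), k3 t (by linarith),
      k2' t h0]
  have yδ : ∀ t, d0 ≤ t → t ≤ d1 → y t = δ t := by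
    intro t h0 h1
    rw [k14 t (by linarith), k13 t (by linarith), k12 t (by linarith), k11 t (by linarith),
      k10 t (by linarith), k9 t (by linarith), k8 t (by linarith), k7 t (by linarith),
      k6 t (by linarith), k5 t (by linarith), k4' t h0]
  have yg1 : y g1 = b0 := by
    rw [k14 _ (by linarith), k13 _ (by linarith), k12 _ (by linarith), k11 _ (by linarith),
      k10 _ (by linarith), k9 _ (by linarith), k8 _ (by linarith), k7 _ (by linarith),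
      k6 _ (by linarith), v5]
  have yb0 : y b0 = β0 := by
    rw [k14 _ (by linarith), k13 _ (by linarith), k12 _ (by linarith), k11 _ (by linarith),
      k10 _ (by linarith), k9 _ (by linarith), k8 _ (by linarith), k7 _ (by linarith), v6]
  have yb1 : y b1 = β1 := by
    rw [k14 _ (by linarith), k13 _ (by linarith), k12 _ (by linarith), k11 _ (by linarith),
      k10 _ (by linarith), k9 _ (by linarith), k8 _ (by linarith), v7]
  have yf0 : y f0 = b1 := by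
    rw [k14 _ (by linarith), k13 _ (by linarith), k12 _ (by linarith), k11 _ (by linarith),
      k10 _ (by linarith), k9 _ (by linarith), v8]
  have yβ : ∀ t, e0 ≤ t → t ≤ e1 → y t = β t := by
    intro t h0 h1
    rw [k14 t (by linarith), k13 t (by linarith), k12 t (by linarith), k11 t (by linarith),
      k10' t h0]
  have yα : ∀ t, r0 ≤ t → t ≤ r1 → y t = α t := by
    intro t h0 h1
    rw [k14 t (by linarith), k13 t (by linarith), k12' t h0]
  have yl0 : y l0 = d0 := by rw [yγ l0 le_rfl hll.le, hγ0]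
  have yl1 : y l1 = d1 := by rw [yγ l1 hll.le le_rfl, hγ1]
  have yd1 : y d1 = g1 := by rw [yδ d1 hdd.le le_rfl, hδ1]
  have yr1 : y r1 = e1 := by rw [yα r1 hrr.le le_rfl, hα1]
  have yr0 : y r0 = e0 := by rw [yα r0 le_rfl hrr.le, hα0]
  have ye0 : y e0 = f0 := by rw [yβ e0 le_rfl he1.le, hβe0]
  have ym : Monotone y := hy.1.monotone
  refine ⟨b0, b1, β0, β1, l0 - 1, r1 + 1, y, u, v, db0, db1, dβ0, dβ1, hβ0, hβ1, hβ1', hbr, hy,
    ya, yb, ?_, ?_, yb0, yb1, hu, hv, huv, ?_, ?_⟩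
  · intro t ht
    have s1 : l0 ≤ y t := by
      have := ym ht
      rw [ya _ le_rfl] at this
      linarith
    have s2 : l1 ≤ y (y t) := by
      have := ym s1
      rw [yl0] at this
      linarith
    have s3 : d1 ≤ y (y (y t)) := by
      have := ym s2
      rwa [yl1] at this
    have s4 : g1 ≤ y (y (y (y t))) := by
      have := ym s3
      rwa [yd1] at this
    have s5 : b0 ≤ y (y (y (y (y t)))) := by
      have := ym s4
      rwa [yg1] at this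
    exact s5
  · intro t ht
    have s1 : y t ≤ r1 := by
      have := ym ht
      rw [yb _ le_rfl] at this
      linarith
    have s2 : y (y t) ≤ r0 := by
      have := ym s1
      rw [yr1] at this
      linarith
    have s3 : y (y (y t)) ≤ e0 := by
      have := ym s2
      rwa [yr0] at this
    have s4 : y (y (y (y t))) ≤ f0 := by
      have := ym s3
      rwa [ye0] at this
    have s5 : y (y (y (y (y t)))) ≤ b1 := by
      have := ym s4
      rwa [yf0] at this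
    exact s5
  · intro t h0 h1
    have hxt0 : r0 ≤ x t := hx.1.monotone h0
    have hxt1 : x t ≤ r1 := hx.1.monotone h1
    have a0 : e0 ≤ α (x t) := by rw [← hα0]; exact hα.1.monotone hxt0
    have a1 : α (x t) ≤ e1 := by rw [← hα1]; exact hα.1.monotone hxt1
    obtain ⟨u0, u1⟩ := Sup_maps hu h0 h1
    have s0 : l0 ≤ x⁻¹ (u t) := hxi.1.monotone u0
    have s1 : x⁻¹ (u t) ≤ l1 := hxi.1.monotone u1
    have hy' : y (x⁻¹ (u t)) = x⁻¹ (β (α (x t))) := by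
      rw [yγ _ s0 s1]
      simp only [hγ, Equiv.Perm.mul_apply]
      rw [inv_right x (u t), inv_left u t]
    show x (y⁻¹ (x⁻¹ (y (y (x t))))) = u t
    rw [yα _ hxt0 hxt1, yβ _ a0 a1, ← hy', inv_left, inv_right]
  · intro t h0 h1
    have hxt0 : r0 ≤ x t := hx.1.monotone h0
    have hxt1 : x t ≤ r1 := hx.1.monotone h1
    obtain ⟨u0, u1⟩ := Sup_maps hv h0 h1
    have s0 : l0 ≤ x⁻¹ (v t) := hxi.1.monotone u0
    have s1 : x⁻¹ (v t) ≤ l1 := hxi.1.monotone u1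
    have c0 : d0 ≤ γ (x⁻¹ (v t)) := by rw [← hγ0]; exact hγm.1.monotone s0
    have c1 : γ (x⁻¹ (v t)) ≤ d1 := by rw [← hγ1]; exact hγm.1.monotone s1
    have hy1' : y (x⁻¹ (v t)) = γ (x⁻¹ (v t)) := yγ _ s0 s1
    have hy2' : y (γ (x⁻¹ (v t))) = x⁻¹ (α (x t)) := by
      rw [yδ _ c0 c1]
      simp only [hδ, Equiv.Perm.mul_apply]
      rw [inv_left γ, inv_right x (v t), inv_left v t]
    show x (y⁻¹ (y⁻¹ (x⁻¹ (y (x t))))) = v t
    rw [yα _ hxt0 hxt1, ← hy2', inv_left, ← hy1', inv_left, inv_right]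

end Pool.Agent.R888.Spread
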