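import Mathlib
import Pool.Agent.R888.Spread.Mate

set_option autoImplicit false

/-! # A group of spread one -/

namespace Pool.Agent.R888.Spread

open Pool.Agent.Helper283.PL

theorem EndsAt.mul {m n : ℤ} {a b : Equiv.Perm ℝ} (ha : EndsAt m a) (hb : EndsAt n b) :
    EndsAt (m + n) (a * b : Equiv.Perm ℝ) := by
  obtain ⟨M, h1, h2⟩ := ha
  obtain ⟨N, h3, h4⟩ := hb
  refine ⟨max N (M + |(n : ℝ)|), fun x hx => ?_, fun x hx => ?_⟩
  · have k1 : x ≤ -N := by linarith [le_max_left N (M + |(n : ℝ)|)]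
    have k2 : x ≤ -(M + |(n : ℝ)|) := by linarith [le_max_right N (M + |(n : ℝ)|)]
    have k3 := le_abs_self (n : ℝ)
    rw [Equiv.Perm.mul_apply, h3 x k1, h1 _ (by linarith)]
    push_cast; ring
  · have k1 : N ≤ x := (le_max_left _ _).trans hx
    have k2 : M + |(n : ℝ)| ≤ x := (le_max_right _ _).trans hx
    have k3 := le_abs_self (n : ℝ)
    rw [Equiv.Perm.mul_apply, h4 x k1, h2 _ (by linarith)]
    push_cast; ring

theorem EndsAt.one : EndsAt 0 (1 : Equiv.Perm ℝ) := ⟨0, fun x _ => by simp, fun x _ => by simp⟩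

theorem EndsAt.inv {m : ℤ} {a : Equiv.Perm ℝ} (ha : EndsAt m a) :
    EndsAt (-m) (a⁻¹ : Equiv.Perm ℝ) := by
  obtain ⟨M, h1, h2⟩ := ha
  refine ⟨M + |(m : ℝ)|, fun x hx => ?_, fun x hx => ?_⟩
  · have k3 := neg_abs_le (m : ℝ)
    rw [Equiv.Perm.inv_eq_iff_eq, h1 _ (by push_cast; linarith)]
    push_cast; ring
  · have k3 := neg_abs_le (m : ℝ)
    rw [Equiv.Perm.inv_eq_iff_eq, h2 _ (by push_cast; linarith)]
    push_cast; ring

theorem EndsAt.unique {m n : ℤ} {a : ℝ → ℝ} (h : EndsAt m a) (h' : EndsAt n a) : m = n := by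
  obtain ⟨M, h1, h2⟩ := h
  obtain ⟨N, h3, h4⟩ := h'
  have e1 := h2 (max M N) (le_max_left _ _)
  have e2 := h4 (max M N) (le_max_right _ _)
  have : (m : ℝ) = n := by linarith
  exact_mod_cast this

/-- the group of all dyadic piecewise linear homeomorphisms of the line which are, for some integer
`n`, the translation by `n` near `-∞` and the translation by `-n` near `+∞` -/
def G : Subgroup (Equiv.Perm ℝ) where
  carrier := {e | e ∈ PLH ∧ ∃ n : ℤ, EndsAt n e}
  mul_mem' := fun {a b} ha hb => ⟨PLH.mul_mem ha.1 hb.1, by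
    obtain ⟨m, hm⟩ := ha.2
    obtain ⟨n, hn⟩ := hb.2
    exact ⟨m + n, hm.mul hn⟩⟩
  one_mem' := ⟨PLH.one_mem, 0, EndsAt.one⟩
  inv_mem' := fun {a} ha => ⟨PLH.inv_mem ha.1, by
    obtain ⟨m, hm⟩ := ha.2
    exact ⟨-m, hm.inv⟩⟩

theorem mem_G {e : Equiv.Perm ℝ} : e ∈ G ↔ e ∈ PLH ∧ ∃ n : ℤ, EndsAt n e := Iff.rfl

theorem Sup_EndsAt {u v : ℝ} {e : Equiv.Perm ℝ} (h : e ∈ Sup u v) : EndsAt 0 e := by
  refine ⟨max (-u) v, fun x hx => ?_, fun x hx => ?_⟩
  · rw [h.2 x (Or.inl (by linarith [le_max_left (-u) v]))]; simp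
  · rw [h.2 x (Or.inr (by linarith [le_max_right (-u) v]))]; simp

theorem Sup_le_G {u v : ℝ} : Sup u v ≤ G := fun _ he => ⟨he.1, 0, Sup_EndsAt he⟩

theorem EndsAt.sup {e : Equiv.Perm ℝ} (he : e ∈ PLH) (h : EndsAt 0 e) : ∃ u v, e ∈ Sup u v := by
  obtain ⟨M, h1, h2⟩ := h
  refine ⟨-M, M, he, fun x hx => ?_⟩
  rcases hx with hx | hx
  · rw [h1 x hx]; simp
  · rw [h2 x hx]; simp

theorem EndsAt.zpow {m : ℤ} {a : Equiv.Perm ℝ} (ha : EndsAt m a) (k : ℕ) :
    EndsAt (k * m) (a ^ k : Equiv.Perm ℝ) := by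
  induction k with
  | zero => simpa using EndsAt.one
  | succ k ih =>
    rw [pow_succ]
    have := ih.mul ha
    have e : ((k + 1 : ℕ) : ℤ) * m = k * m + m := by push_cast; ring
    rw [e]
    exact this

theorem EndsAt.zpow' {a : Equiv.Perm ℝ} (ha : EndsAt 1 a) (k : ℤ) :
    EndsAt k (a ^ k : Equiv.Perm ℝ) := by
  rcases Int.eq_nat_or_neg k with ⟨n, rfl | rfl⟩
  · have := ha.zpow n
    rw [mul_one] at this
    rwa [zpow_natCast]
  · have := (ha.zpow n).inv
    rw [mul_one] at this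
    rwa [zpow_neg, zpow_natCast]

/-- if `x` moves a point to the right then it has a mate -/
theorem gen_right {x : Equiv.Perm ℝ} (hx : x ∈ G) {p : ℝ} (hp : p < x p) :
    ∃ y ∈ G, EndsAt 1 y ∧ G ≤ Subgroup.closure {x, y} := by
  obtain ⟨b0, b1, β0, β1, A, B, y, u, v, db0, db1, dβ0, dβ1, hβ0, hβ, hβ1, hbx, hy, yA, yB, yA5,
    yB5, yb0, yb1, hu, hv, huv, hw1, hw2⟩ := exists_mate hx.1 hp
  have hbb : b0 < b1 := hβ0.trans (hβ.trans hβ1)
  have hy1 : EndsAt 1 y := by
    refine ⟨max (-A) B, fun t ht => ?_, fun t ht => ?_⟩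
    · rw [yA t (by linarith [le_max_left (-A) B])]; simp
    · rw [yB t (by linarith [le_max_right (-A) B])]; simp
  have hyG : y ∈ G := ⟨hy, 1, hy1⟩
  refine ⟨y, hyG, hy1, ?_⟩
  set H := Subgroup.closure {x, y} with hH
  have xH : x ∈ H := Subgroup.subset_closure (by simp)
  have yH : y ∈ H := Subgroup.subset_closure (by simp)
  have ym : StrictMono y := hy.1
  -- iteration
  have stay0 : ∀ (k : ℕ) (t : ℝ), b0 ≤ t → b0 ≤ (y ^ k) t := by
    intro k
    induction k with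
    | zero => intro t ht; simpa using ht
    | succ k ih =>
      intro t ht
      rw [pow_succ, Equiv.Perm.mul_apply]
      apply ih
      have := ym.monotone ht
      rw [yb0] at this
      linarith
  have stay1 : ∀ (k : ℕ) (t : ℝ), t ≤ b1 → (y ^ k) t ≤ b1 := by
    intro k
    induction k with
    | zero => intro t ht; simpa using ht
    | succ k ih =>
      intro t ht
      rw [pow_succ, Equiv.Perm.mul_apply]
      apply ih
      have := ym.monotone ht
      rw [yb1] at this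
      linarith
  have reach0 : ∀ (n : ℕ) (t : ℝ), A - n ≤ t → b0 ≤ (y ^ (5 + n)) t := by
    intro n
    induction n with
    | zero => intro t ht; simpa using yA5 t (by simpa using ht)
    | succ n ih =>
      intro t ht
      rcases le_or_gt t A with h | h
      · have h2 := yA t h
        rw [← add_assoc, pow_succ, Equiv.Perm.mul_apply, h2]
        apply ih
        push_cast at ht
        linarith
      · have h3 := stay0 (n + 1) _ (yA5 t h.le)
        rw [← Equiv.Perm.mul_apply, ← pow_add] at h3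
        rwa [add_comm 5 (n + 1)]
  have reach1 : ∀ (n : ℕ) (t : ℝ), t ≤ B + n → (y ^ (5 + n)) t ≤ b1 := by
    intro n
    induction n with
    | zero => intro t ht; simpa using yB5 t (by simpa using ht)
    | succ n ih =>
      intro t ht
      rcases le_or_gt B t with h | h
      · have h2 := yB t h
        rw [← add_assoc, pow_succ, Equiv.Perm.mul_apply, h2]
        apply ih
        push_cast at ht
        linarith
      · have h3 := stay1 (n + 1) _ (yB5 t h.le)
        rw [← Equiv.Perm.mul_apply, ← pow_add] at h3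
        rwa [add_comm 5 (n + 1)]
  have reach : ∀ s t : ℝ, ∃ n : ℕ, b0 ≤ (y ^ n) s ∧ (y ^ n) t ≤ b1 := by
    intro s t
    obtain ⟨n, hn⟩ := exists_nat_ge (max (A - s) (t - B))
    refine ⟨5 + n, reach0 n s ?_, reach1 n t ?_⟩
    · linarith [le_max_left (A - s) (t - B)]
    · linarith [le_max_right (A - s) (t - B)]
  have ypow : ∀ n : ℕ, y ^ n ∈ PLH := fun n => PLH.pow_mem hy n
  -- `H` is normalised by `Sup b0 b1`
  set w1 := x * y⁻¹ * x⁻¹ * y * y * x with hw1d
  set w2 := x * y⁻¹ * y⁻¹ * x⁻¹ * y * x with hw2d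
  have w1H : w1 ∈ H := mul_mem (mul_mem (mul_mem (mul_mem (mul_mem xH (inv_mem yH)) (inv_mem xH))
    yH) yH) xH
  have w2H : w2 ∈ H := mul_mem (mul_mem (mul_mem (mul_mem (mul_mem xH (inv_mem yH)) (inv_mem yH))
    (inv_mem xH)) yH) xH
  have winv : ∀ (w c : Equiv.Perm ℝ), c ∈ Sup b0 b1 → (∀ t, b0 ≤ t → t ≤ b1 → w t = c t) →
      ∀ t, b0 ≤ t → t ≤ b1 → w⁻¹ t = c⁻¹ t := by
    intro w c hc hw t h0 h1
    obtain ⟨h2, h3⟩ := Sup_maps (inv_mem hc) h0 h1
    rw [Equiv.Perm.inv_eq_iff_eq, hw _ h2 h3, inv_right]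
  have hN : ∀ g ∈ Sup b0 b1, ∀ m ∈ H, m ∈ Sup b0 b1 → g * m * g⁻¹ ∈ H := by
    have base : ∀ (w c : Equiv.Perm ℝ), w ∈ H → c ∈ Sup b0 b1 →
        (∀ t, b0 ≤ t → t ≤ b1 → w t = c t) → ∀ m ∈ H, m ∈ Sup b0 b1 → c * m * c⁻¹ ∈ H := by
      intro w c hwH hc hw m hm hmS
      rw [← conj_eq hc hw hmS]
      exact mul_mem (mul_mem hwH hm) (inv_mem hwH)
    have key : ∀ g ∈ Subgroup.closure {u, v}, g ∈ Sup b0 b1 ∧
        (∀ m ∈ H, m ∈ Sup b0 b1 → g * m * g⁻¹ ∈ H) ∧
        (∀ m ∈ H, m ∈ Sup b0 b1 → g⁻¹ * m * g⁻¹⁻¹ ∈ H) := by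
      intro g hg
      induction hg using Subgroup.closure_induction with
      | mem c hc =>
        rcases hc with rfl | hc
        · exact ⟨hu, base w1 c w1H hu hw1,
            base w1⁻¹ c⁻¹ (inv_mem w1H) (inv_mem hu) (winv _ _ hu hw1)⟩
        · rw [Set.mem_singleton_iff] at hc
          subst hc
          exact ⟨hv, base w2 c w2H hv hw2,
            base w2⁻¹ c⁻¹ (inv_mem w2H) (inv_mem hv) (winv _ _ hv hw2)⟩
      | one =>
        refine ⟨one_mem _, fun m hm _ => ?_, fun m hm _ => ?_⟩ <;> simpa using hm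
      | mul a b _ _ iha ihb =>
        refine ⟨mul_mem iha.1 ihb.1, fun m hm hmS => ?_, fun m hm hmS => ?_⟩
        · have h1 := ihb.2.1 m hm hmS
          have h2 := iha.2.1 _ h1 (mul_mem (mul_mem ihb.1 hmS) (inv_mem ihb.1))
          have e : a * b * m * (a * b)⁻¹ = a * (b * m * b⁻¹) * a⁻¹ := by group
          rwa [e]
        · have h1 := iha.2.2 m hm hmS
          have h2 := ihb.2.2 _ h1 (mul_mem (mul_mem (inv_mem iha.1) hmS)
            (inv_mem (inv_mem iha.1)))
          have e : (a * b)⁻¹ * m * (a * b)⁻¹⁻¹ = b⁻¹ * (a⁻¹ * m * a⁻¹⁻¹) * b⁻¹⁻¹ := by group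
          rwa [e]
      | inv a _ iha =>
        refine ⟨inv_mem iha.1, iha.2.2, fun m hm hmS => ?_⟩
        have h1 := iha.2.1 m hm hmS
        have e : a⁻¹⁻¹ * m * a⁻¹⁻¹⁻¹ = a * m * a⁻¹ := by group
        rwa [e]
    exact fun g hg => (key g (huv hg)).2.1
  -- a nontrivial element
  obtain ⟨m, hm⟩ := hx.2
  set z := x * y * x⁻¹ * y⁻¹ with hz
  have zH : z ∈ H := mul_mem (mul_mem (mul_mem xH yH) (inv_mem xH)) (inv_mem yH)
  have zP : z ∈ PLH := mul_mem (mul_mem (mul_mem hx.1 hy) (inv_mem hx.1)) (inv_mem hy)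
  have zE : EndsAt 0 z := by
    have := ((hm.mul hy1).mul hm.inv).mul hy1.inv
    have e : m + 1 + -m + -1 = 0 := by ring
    rwa [e] at this
  have zne : z ≠ 1 := by
    intro h
    have hxy : x * y = y * x := by
      have e : x * y = z * (y * x) := by rw [hz]; group
      rw [e, h, one_mul]
    have hcomm : ∀ (n : ℕ) (t : ℝ), x ((y ^ n) t) = (y ^ n) (x t) := by
      intro n t
      have : Commute x (y ^ n) := Commute.pow_right hxy n
      have e := congrArg (fun f : Equiv.Perm ℝ => f t) this.eq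
      simpa using e
    obtain ⟨n, -, hn⟩ := reach b0 (x b0)
    have h1 := hx.1.1.monotone (stay0 n b0 le_rfl)
    rw [hcomm] at h1
    linarith
  obtain ⟨s, t, zS⟩ := zE.sup zP
  obtain ⟨n, hn0, hn1⟩ := reach s t
  have hzn : y ^ n * z * (y ^ n)⁻¹ ∈ Sup b0 b1 :=
    Sup.mono hn0 hn1 (conj_Sup (ypow n) zS)
  have hznH : y ^ n * z * (y ^ n)⁻¹ ∈ H :=
    mul_mem (mul_mem (pow_mem yH n) zH) (inv_mem (pow_mem yH n))
  have hzn1 : y ^ n * z * (y ^ n)⁻¹ ≠ 1 := by
    intro h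
    apply zne
    have e : z = (y ^ n)⁻¹ * (y ^ n * z * (y ^ n)⁻¹) * y ^ n := by group
    rw [e, h]
    group
  have hsub : Sup β0 β1 ≤ H := supp_le db0 db1 hN hznH hzn hzn1 dβ0 dβ1 hβ0 hβ hβ1
  -- compactly supported elements
  have hcpt : ∀ g s t, g ∈ Sup s t → g ∈ H := by
    intro g s t hg
    obtain ⟨n, hn0, hn1⟩ := reach s t
    have h0 : β0 ≤ (y ^ (n + 1)) s := by
      rw [pow_succ', Equiv.Perm.mul_apply, ← yb0]
      exact ym.monotone hn0
    have h1 : (y ^ (n + 1)) t ≤ β1 := by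
      rw [pow_succ', Equiv.Perm.mul_apply, ← yb1]
      exact ym.monotone hn1
    have h2 := hsub (Sup.mono h0 h1 (conj_Sup (ypow (n + 1)) hg))
    have e : g = (y ^ (n + 1))⁻¹ * (y ^ (n + 1) * g * (y ^ (n + 1))⁻¹) * y ^ (n + 1) := by group
    rw [e]
    exact mul_mem (mul_mem (inv_mem (pow_mem yH _)) h2) (pow_mem yH _)
  intro g hg
  obtain ⟨k, hk⟩ := hg.2
  have h1 : EndsAt 0 (g * y ^ (-k) : Equiv.Perm ℝ) := by
    have := hk.mul (hy1.zpow' (-k))
    rwa [add_neg_cancel] at this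
  have h2 : g * y ^ (-k) ∈ PLH := mul_mem hg.1 (zpow_mem hy _)
  obtain ⟨s, t, h3⟩ := h1.sup h2
  have h4 := hcpt _ s t h3
  have e : g = g * y ^ (-k) * y ^ k := by group
  rw [e]
  exact mul_mem h4 (zpow_mem yH _)

/-- every nontrivial element has a mate -/
theorem gen_any {x : Equiv.Perm ℝ} (hx : x ∈ G) (hx1 : x ≠ 1) :
    ∃ y ∈ G, EndsAt 1 y ∧ G ≤ Subgroup.closure {x, y} := by
  have : ∃ q, x q ≠ q := by
    by_contra hc
    push Not at hc
    exact hx1 (Equiv.ext hc)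
  obtain ⟨q, hq⟩ := this
  rcases lt_or_gt_of_ne hq with hq | hq
  · have h1 : q < x⁻¹ q := by
      rw [lt_inv_iff' hx.1]
      exact hq
    obtain ⟨y, hy, hy1, h⟩ := gen_right (inv_mem hx) h1
    refine ⟨y, hy, hy1, h.trans ?_⟩
    rw [Subgroup.closure_le]
    rintro a (rfl | ha)
    · exact inv_mem (Subgroup.subset_closure (by simp))
    · rw [Set.mem_singleton_iff] at ha
      subst ha
      exact Subgroup.subset_closure (by simp)
  · exact gen_right hx hq

/-- the element `X` moved by `c` -/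
noncomputable def XX (c : ℝ) : Equiv.Perm ℝ := tr c * (X : Equiv.Perm ℝ) * (tr c)⁻¹

theorem tr_inv (c x : ℝ) : (tr c)⁻¹ x = x - c := by
  rw [Equiv.Perm.inv_eq_iff_eq, tr_apply]; ring

theorem XX_mem {c : ℝ} (hc : Dy c) : XX c ∈ Sup c (c + 1) := by
  have := conj_Sup (tr_mem hc) X.2
  rw [tr_apply, tr_apply, zero_add, add_comm] at this
  exact this

theorem XX_apply {c p : ℝ} (h0 : c < p) (h1 : p ≤ c + 1 / 4) : p < XX c p := by
  have h := X_zero10185 (y := p - c) (by linarith) (by linarith)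
  have : XX c p = (X : Equiv.Perm ℝ) (p - c) + c := by
    unfold XX
    rw [Equiv.Perm.mul_apply, Equiv.Perm.mul_apply, tr_apply, tr_inv]
  rw [this, h]
  linarith

theorem XX_ne (c : ℝ) : XX c ≠ 1 := by
  intro h
  have := XX_apply (c := c) (p := c + 1 / 4) (by linarith) le_rfl
  rw [h] at this
  exact lt_irrefl _ this

/-- `G` has no fixed point -/
theorem no_fix (p : ℝ) : ∃ e ∈ G, e p ≠ p := by
  obtain ⟨c, dc, h0, h1⟩ := Dy.exists_between (show p - 1 / 4 < p by linarith)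
  exact ⟨XX c, Sup_le_G (XX_mem dc), (XX_apply h1 (by linarith)).ne'⟩

/-- an element with nonzero index has a fixed point -/
theorem exists_fix {y : Equiv.Perm ℝ} (hy : y ∈ PLH) {n : ℤ} (hn : EndsAt n y) (hn0 : n ≠ 0) :
    ∃ p, y p = p := by
  have hc : Continuous (fun x => y x - x) := (PLf.cont hy.2).sub continuous_id
  obtain ⟨M, h1, h2⟩ := hn
  have e1 : y (-M) - (-M) = n := by rw [h1 _ le_rfl]; ring
  have e2 : y M - M = -n := by rw [h2 _ le_rfl]; ring
  have key : (0 : ℝ) ∈ Set.range (fun x => y x - x) := by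
    rcases lt_or_gt_of_ne hn0 with h | h
    · have h' : (n : ℝ) < 0 := by exact_mod_cast h
      exact mem_range_of_exists_le_of_exists_ge hc ⟨-M, by rw [e1]; linarith⟩
        ⟨M, by rw [e2]; linarith⟩
    · have h' : (0 : ℝ) < n := by exact_mod_cast h
      exact mem_range_of_exists_le_of_exists_ge hc ⟨M, by rw [e2]; linarith⟩
        ⟨-M, by rw [e1]; linarith⟩
  obtain ⟨p, hp⟩ := key
  exact ⟨p, by simpa [sub_eq_zero] using hp⟩

/-- the subgroup of elements of index zero -/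
def G0 : Subgroup (Equiv.Perm ℝ) where
  carrier := {e | EndsAt 0 e}
  mul_mem' := fun {a b} ha hb => by
    have := EndsAt.mul ha hb
    rwa [add_zero] at this
  one_mem' := EndsAt.one
  inv_mem' := fun {a} ha => by
    have := EndsAt.inv ha
    rwa [neg_zero] at this

/-- two elements with disjoint supports have no common mate -/
theorem no_common {x1 x2 y : Equiv.Perm ℝ} {u v u' v' : ℝ} (h1 : x1 ∈ Sup u v)
    (h2 : x2 ∈ Sup u' v') (hvu : v ≤ u') (hy : y ∈ G) (g1 : G ≤ Subgroup.closure {x1, y})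
    (g2 : G ≤ Subgroup.closure {x2, y}) : False := by
  obtain ⟨n, hn⟩ := hy.2
  have hn0 : n ≠ 0 := by
    rintro rfl
    have h3 : Subgroup.closure {x1, y} ≤ G0 := by
      rw [Subgroup.closure_le]
      rintro a (rfl | ha)
      · exact Sup_EndsAt h1
      · rw [Set.mem_singleton_iff] at ha
        subst ha
        exact hn
    obtain ⟨w, hwG, hw1, -⟩ := gen_any (Sup_le_G (XX_mem Dy.zero)) (XX_ne 0)
    have h4 : EndsAt 0 w := h3 (g1 hwG)
    exact absurd (h4.unique hw1) (by norm_num)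
  obtain ⟨p, hp⟩ := exists_fix hy.1 hn hn0
  have fixes : ∀ x : Equiv.Perm ℝ, x p = p → ¬ G ≤ Subgroup.closure {x, y} := by
    intro x hx hle
    obtain ⟨e, heG, he⟩ := no_fix p
    apply he
    have h3 : Subgroup.closure {x, y} ≤ MulAction.stabilizer (Equiv.Perm ℝ) p := by
      rw [Subgroup.closure_le]
      rintro a (rfl | ha)
      · exact hx
      · rw [Set.mem_singleton_iff] at ha
        subst ha
        exact hp
    exact h3 (hle heG)
  rcases le_or_gt v p with hv | hv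
  · exact fixes x1 (h1.2 p (Or.inr hv)) g1
  · exact fixes x2 (h2.2 p (Or.inl (hv.le.trans hvu))) g2

end Pool.Agent.R888.Spread
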